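import Pool.Agent.Lib.MP_53fa4a_an_AF.FinB

/-!
# MP_53fa4a_an: tiling measures and diffraction measures of affine type

Let `Ω` be a bounded, measurable, nowhere dense set of positive measure in `ℝ^d`. A locally finite
positive measure `ν` which is a countable sum of measures, each absolutely continuous with respect
to Lebesgue measure on an affine subspace (with finitely many directions), is not a diffraction
measure of a spectrum of `Ω`; if `ν (Ω + y)` is constant for almost every `y`, then `ν` has no
atoms.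
-/

set_option autoImplicit false

open MeasureTheory Set Filter Metric
open scoped ENNReal Topology ComplexConjugate

namespace Pool.Agent.Results.MP_53fa4a_an.AffineDiffraction

/-- The exponential `x ↦ exp (2 π i ⟨l, x⟩)`. -/
noncomputable def ee {d : ℕ} (l x : EuclideanSpace ℝ (Fin d)) : ℂ :=
  Complex.exp (2 * Real.pi * Complex.I * ((inner ℝ l x : ℝ) : ℂ))

/-- `Λ` is a spectrum of `Ω`: the exponentials with frequencies in `Λ` form an orthogonal and
complete family in `L²(Ω)`. -/
def IsSpectrum {d : ℕ} (Λ Ω : Set (EuclideanSpace ℝ (Fin d))) : Prop :=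
  (∀ l ∈ Λ, ∀ l' ∈ Λ, l ≠ l' → ∫ x in Ω, ee l x * conj (ee l' x) = 0) ∧
    ∀ f : EuclideanSpace ℝ (Fin d) → ℂ, MemLp f 2 (volume.restrict Ω) →
      (∀ l ∈ Λ, ∫ x in Ω, f x * conj (ee l x) = 0) → f =ᵐ[volume.restrict Ω] 0

/-- `ν` is a diffraction measure of `Λ`: it is locally finite and the vague limit of the densities
`|∑_{l ∈ F} e_l|²` divided by the number of elements of `F`, where `F` runs through the parts of `Λ`
in a sequence of balls with radii tending to infinity. -/
def IsDiffraction {d : ℕ} (Λ : Set (EuclideanSpace ℝ (Fin d)))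
    (ν : Measure (EuclideanSpace ℝ (Fin d))) : Prop :=
  IsLocallyFiniteMeasure ν ∧ ∃ (z : ℕ → EuclideanSpace ℝ (Fin d)) (R : ℕ → ℝ)
    (F : ℕ → Finset (EuclideanSpace ℝ (Fin d))),
    Tendsto R atTop atTop ∧
      (∀ k, (F k : Set (EuclideanSpace ℝ (Fin d))) = Λ ∩ closedBall (z k) (R k)) ∧
      ∀ f : EuclideanSpace ℝ (Fin d) → ℝ, Continuous f → HasCompactSupport f →
        Tendsto (fun k => ∫ x, f x * (‖∑ l ∈ F k, ee l x‖ ^ 2 / (F k).card)) atTop
          (𝓝 (∫ x, f x ∂ν))

/-- `ν` is of affine type: it is a countable sum of measures `κ n`, each absolutely continuous with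
respect to Lebesgue measure on an affine subspace `t n + W n`, where the directions `W n` (linear
subspaces of any dimension) are taken from a finite set. -/
def AffineType {d : ℕ} (ν : Measure (EuclideanSpace ℝ (Fin d))) : Prop :=
  ∃ (L : Finset (Submodule ℝ (EuclideanSpace ℝ (Fin d))))
    (κ : ℕ → Measure (EuclideanSpace ℝ (Fin d))) (t : ℕ → EuclideanSpace ℝ (Fin d))
    (W : ℕ → Submodule ℝ (EuclideanSpace ℝ (Fin d))), (∀ n, W n ∈ L) ∧
      (∀ n, κ n ≪ Measure.map (fun z : W n => (z : EuclideanSpace ℝ (Fin d)) + t n) volume) ∧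
      ν = Measure.sum κ

/-- **Main theorem.** A locally finite measure of affine type is not a diffraction measure of a
spectrum of a bounded nowhere dense set `Ω` of positive measure, and if its values on the translates
of `Ω` are almost everywhere constant, then it has no atoms. -/
theorem result {d : ℕ} {Ω : Set (EuclideanSpace ℝ (Fin d))} (hm : MeasurableSet Ω)
    (hb : Bornology.IsBounded Ω) (hpos : volume Ω ≠ 0) (hnd : interior (closure Ω) = ∅)
    {ν : Measure (EuclideanSpace ℝ (Fin d))} (hlf : IsLocallyFiniteMeasure ν)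
    (haff : AffineType ν) :
    (∀ Λ : Set (EuclideanSpace ℝ (Fin d)), IsSpectrum Λ Ω → ¬ IsDiffraction Λ ν) ∧
      ∀ c : ℝ≥0∞, (∀ᵐ y, ν {z | z - y ∈ Ω} = c) → ∀ p, ν {p} = 0 :=
  ⟨fun _ hs hν => (Pool.Agent.SpecAF.diffraction_main hm hb hpos hnd hs hν).1 haff,
    fun _ hc p => Pool.Agent.SpecAF.no_atoms_of_affine hm hb hpos hnd hlf hc haff p⟩

end Pool.Agent.Results.MP_53fa4a_an.AffineDiffraction
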