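import Pool.Agent.Lib.MP_53fa4a_an.Match

/-!
# MP_53fa4a_an: almost periods of orthogonal exponentials on a nowhere dense set

Let `Ω` be a bounded measurable nowhere dense set of positive measure in `ℝ^d` and `ε < 1/2`. There
is `κ > 0` such that, for finite sets `F`, `F'` of frequencies whose exponentials are orthogonal on
`Ω`, the translations `τ` that match all but the proportion `ε` of `F'` with `F`, up to moving
frequencies by at most `κ`, have Banach density zero, uniformly in `F` and `F'`: a `1`-separated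
set of such translations in a ball of radius `R` has fewer than `c R^d` elements as soon as `R` is
large in terms of `Ω`, `ε`, `c`.

With `F = F'` the part of a spectrum `Λ` of `Ω` in a large ball this says that the `(ε, κ)`-almost
periods of `Λ` have Banach density zero; in particular they are not relatively dense, so that `Λ` is
not periodic, limit periodic, a regular model set, or almost periodic in the mean.
-/

set_option autoImplicit false

open MeasureTheory Set Filter Metric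
open scoped ENNReal Topology ComplexConjugate

namespace Pool.Agent.Results.MP_53fa4a_an.AlmostPeriods

/-- The exponential `x ↦ exp (2 π i ⟨l, x⟩)`. -/
noncomputable def ee {d : ℕ} (l x : EuclideanSpace ℝ (Fin d)) : ℂ :=
  Complex.exp (2 * Real.pi * Complex.I * ((inner ℝ l x : ℝ) : ℂ))

/-- The exponentials with frequencies in the finite set `F` are pairwise orthogonal in `L²(Ω)`. -/
def Orth {d : ℕ} (Ω : Set (EuclideanSpace ℝ (Fin d))) (F : Finset (EuclideanSpace ℝ (Fin d))) :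
    Prop :=
  ∀ l ∈ F, ∀ l' ∈ F, l ≠ l' → ∫ x in Ω, ee l x * conj (ee l' x) = 0

/-- After the translation by `τ`, at least `m` elements of `F'` have a partner in `F` at distance
at most `κ`; different elements have different partners. -/
def Matches {d : ℕ} (κ m : ℝ) (F' F : Finset (EuclideanSpace ℝ (Fin d)))
    (τ : EuclideanSpace ℝ (Fin d)) : Prop :=
  ∃ P ⊆ F', m ≤ (P.card : ℝ) ∧
    ∃ σ : EuclideanSpace ℝ (Fin d) → EuclideanSpace ℝ (Fin d),
      Set.InjOn σ (P : Set (EuclideanSpace ℝ (Fin d))) ∧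
        ∀ l ∈ P, σ l ∈ F ∧ dist (l + τ) (σ l) ≤ κ

/-- The topological part: a nowhere dense set whose translates all meet the small neighbourhoods of
at most `K` points of a ball does not exist. -/
theorem no_net {d : ℕ} {Ω : Set (EuclideanSpace ℝ (Fin d))} (hnd : interior (closure Ω) = ∅)
    {ρ : ℝ} {K : ℕ} (h : ∀ n : ℕ, ∃ J : Finset (EuclideanSpace ℝ (Fin d)), J.card ≤ K ∧
      (∀ y ∈ J, ‖y‖ ≤ ρ) ∧ ∀ t : EuclideanSpace ℝ (Fin d), ‖t‖ ≤ 1 →
        ∃ x ∈ Ω, ∃ y ∈ J, dist (x + t) y ≤ 1 / ((n : ℝ) + 1)) : False := by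
  have h' : ∀ n : ℕ, ∃ c : Fin K → EuclideanSpace ℝ (Fin d), (∀ i, ‖c i‖ ≤ ρ) ∧
      ∀ t : EuclideanSpace ℝ (Fin d), ‖t‖ ≤ 1 →
        ∃ x ∈ Ω, ∃ i, dist (x + t) (c i) ≤ 1 / ((n : ℝ) + 1) := by
    intro n
    obtain ⟨J, hJ, hJρ, hJt⟩ := h n
    obtain ⟨_, _, y₀, hy₀, _⟩ := hJt 0 (by simp)
    classical
    refine ⟨fun i => if hi : (i : ℕ) < J.card then (J.equivFin.symm ⟨i, hi⟩ : EuclideanSpace ℝ _)
      else y₀, fun i => ?_, fun t ht => ?_⟩
    · dsimp only
      split_ifs with hi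
      · exact hJρ _ (J.equivFin.symm ⟨i, hi⟩).2
      · exact hJρ _ hy₀
    · obtain ⟨x, hx, y, hy, hxy⟩ := hJt t ht
      refine ⟨x, hx, ⟨J.equivFin ⟨y, hy⟩, (J.equivFin ⟨y, hy⟩).2.trans_le hJ⟩, ?_⟩
      dsimp only
      rw [dif_pos (J.equivFin ⟨y, hy⟩).2]
      simpa using hxy
  choose c hcρ hct using h'
  have hcomp : IsCompact (Set.pi univ fun _ : Fin K =>
      closedBall (0 : EuclideanSpace ℝ (Fin d)) ρ) :=
    isCompact_univ_pi fun _ => isCompact_closedBall _ _
  obtain ⟨e, -, φ, hφ, hlim⟩ := hcomp.tendsto_subseq (x := c) fun n => by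
    intro i _
    rw [mem_closedBall_zero_iff]
    exact hcρ n i
  -- every `t` in the unit ball lies in one of finitely many nowhere dense sets
  have hcov : ∀ t : EuclideanSpace ℝ (Fin d), ‖t‖ ≤ 1 → ∃ i, e i - t ∈ closure Ω := by
    intro t ht
    by_contra hcon
    push Not at hcon
    obtain ⟨x₀, hx₀, i₀, _⟩ := hct 0 t ht
    have hne : (closure Ω).Nonempty := ⟨x₀, subset_closure hx₀⟩
    obtain ⟨i₁, -, hi₁⟩ := Finset.exists_min_image Finset.univ
      (fun i => infDist (e i - t) (closure Ω)) ⟨i₀, Finset.mem_univ _⟩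
    set r := infDist (e i₁ - t) (closure Ω) with hr
    have hr0 : 0 < r := (isClosed_closure.notMem_iff_infDist_pos hne).1 (hcon i₁)
    have ev1 : ∀ᶠ n in atTop, dist (c (φ n)) e < r / 2 :=
      (Metric.tendsto_nhds.1 hlim) (r / 2) (by positivity)
    have ev2 : ∀ᶠ n in atTop, 1 / ((φ n : ℝ) + 1) < r / 2 := by
      have := (tendsto_one_div_add_atTop_nhds_zero_nat (𝕜 := ℝ)).comp hφ.tendsto_atTop
      exact this.eventually (gt_mem_nhds (by positivity))
    obtain ⟨n, hn1, hn2⟩ := (ev1.and ev2).exists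
    obtain ⟨x, hx, i, hxi⟩ := hct (φ n) t ht
    have h1 : infDist (e i - t) (closure Ω) ≤ dist (e i - t) x :=
      infDist_le_dist_of_mem (subset_closure hx)
    have h2 : dist (e i - t) x = dist (x + t) (e i) := by
      rw [dist_comm, dist_eq_norm, dist_eq_norm]
      congr 1
      abel
    have h3 : dist (c (φ n) i) (e i) ≤ dist (c (φ n)) e := dist_le_pi_dist _ _ _
    have h4 := dist_triangle (x + t) (c (φ n) i) (e i)
    have h5 := hi₁ i (Finset.mem_univ _)
    linarith
  have hdense : Dense (⋂ i, {t : EuclideanSpace ℝ (Fin d) | e i - t ∈ (closure Ω)ᶜ}) := by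
    refine dense_iInter_of_isOpen (fun i => ?_) fun i => ?_
    · exact isClosed_closure.isOpen_compl.preimage (continuous_const.sub continuous_id)
    · have hd : Dense (closure Ω)ᶜ := interior_eq_empty_iff_dense_compl.1 hnd
      exact hd.preimage (Homeomorph.subLeft (e i)).isOpenMap
  obtain ⟨t, ht, ht'⟩ := hdense.exists_mem_open isOpen_ball
    ⟨(0 : EuclideanSpace ℝ (Fin d)), mem_ball_self one_pos⟩
  obtain ⟨i, hi⟩ := hcov t (by
    rw [mem_ball_zero_iff] at ht'
    exact ht'.le)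
  exact (mem_iInter.1 ht i) hi

/-- **Main theorem.** The approximate matches of finite sets of orthogonal frequencies of a bounded
nowhere dense set have Banach density zero. -/
theorem result {d : ℕ} {Ω : Set (EuclideanSpace ℝ (Fin d))} (hm : MeasurableSet Ω)
    (hb : Bornology.IsBounded Ω) (hpos : volume Ω ≠ 0) (hnd : interior (closure Ω) = ∅)
    {ε : ℝ} (hε : ε < 1 / 2) :
    ∃ κ : ℝ, 0 < κ ∧ ∀ c : ℝ, 0 < c → ∃ R₀ : ℝ, ∀ R : ℝ, R₀ ≤ R →
      ∀ z : EuclideanSpace ℝ (Fin d), ∀ F F' : Finset (EuclideanSpace ℝ (Fin d)), F.Nonempty →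
      Orth Ω F → Orth Ω F' →
      ∀ T : Finset (EuclideanSpace ℝ (Fin d)),
        (∀ τ ∈ T, dist τ z ≤ R ∧ Matches κ ((1 - ε) * ((F.card + F'.card) / 2)) F' F τ) →
        (∀ τ ∈ T, ∀ τ' ∈ T, τ ≠ τ' → 1 ≤ dist τ τ') →
        (T.card : ℝ) < c * R ^ d := by
  classical
  have hfin : volume Ω ≠ ∞ := hb.measure_lt_top.ne
  obtain ⟨ρ₀, hρ₀⟩ := hb.subset_closedBall 0
  set ρ : ℝ := max ρ₀ 0 + 1 with hρ
  have hρ0 : 0 < ρ := by positivity
  set a : ℝ := (1 - 2 * ε) / 4 with ha
  set θ : ℝ := (1 - 2 * ε) / 8 with hθ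
  have ha0 : 0 < a := by linarith
  have hθ0 : 0 < θ := by linarith
  have ha1 : a < 1 - 2 * ε - 2 * θ := by linarith
  set κ : ℝ := Real.log (1 + θ) / (2 * Real.pi * ((d + 1) * ρ)) with hκ
  have hlog : 0 < Real.log (1 + θ) := Real.log_pos (by linarith)
  have hκ0 : 0 < κ := by positivity
  have hθκ : Real.exp (2 * Real.pi * (d * (κ * ρ))) - 1 ≤ θ := by
    have h1 : 2 * Real.pi * (d * (κ * ρ)) ≤ Real.log (1 + θ) := by
      calc 2 * Real.pi * (d * (κ * ρ)) ≤ 2 * Real.pi * ((d + 1) * (κ * ρ)) := by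
            gcongr
            linarith
        _ = Real.log (1 + θ) := by
            rw [hκ]
            have := Real.pi_pos
            field_simp
    have h2 := Real.exp_le_exp.2 h1
    rw [Real.exp_log (by linarith)] at h2
    linarith
  refine ⟨κ, hκ0, fun c hc => ?_⟩
  by_contra hcon
  push Not at hcon
  obtain ⟨K, hK⟩ := Pool.Agent.SpecND.exists_cover (d := d) hρ0 ha0 hc
  refine no_net hnd (ρ := ρ) (K := K) fun n => ?_
  obtain ⟨R₀, hR₀⟩ := hK (1 / ((n : ℝ) + 1)) (by positivity)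
  obtain ⟨R, hR, z, F, F', hF, horth, horth', T, hT, hsep, hTc⟩ := hcon (max R₀ 1)
  have hR1 : 1 ≤ R := (le_max_right _ _).trans hR
  have hinj : Function.Injective fun τ : EuclideanSpace ℝ (Fin d) => τ - z :=
    sub_left_injective
  obtain ⟨J, hJK, hJρ, hJ⟩ := hR₀ R ((le_max_left _ _).trans hR) (T.image fun τ => τ - z)
    (fun τ hτ => by
      obtain ⟨τ₁, h₁, rfl⟩ := Finset.mem_image.1 hτ
      rw [← dist_eq_norm]
      exact (hT τ₁ h₁).1)
    (fun τ hτ τ' hτ' hne => by
      obtain ⟨τ₁, h₁, rfl⟩ := Finset.mem_image.1 hτ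
      obtain ⟨τ₂, h₂, rfl⟩ := Finset.mem_image.1 hτ'
      rw [sub_sub_sub_cancel_right, ← dist_eq_norm]
      exact hsep τ₁ h₁ τ₂ h₂ fun e => hne (by rw [e]))
    (by rwa [Finset.card_image_of_injective _ hinj])
  refine ⟨J, hJK, hJρ, fun t ht => ?_⟩
  have hTne : T.Nonempty := by
    rw [← Finset.card_pos, ← Nat.cast_pos (α := ℝ)]
    exact lt_of_lt_of_le (by positivity) hTc
  have hball : ∀ x ∈ Ω, ‖x + t‖ ≤ ρ := by
    intro x hx
    have h1 : ‖x‖ ≤ ρ₀ := by simpa using hρ₀ hx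
    refine (norm_add_le _ _).trans ?_
    have := le_max_left ρ₀ 0
    linarith
  obtain ⟨x, hx, hxT⟩ := Pool.Agent.SpecND.exists_large' hm hfin hpos hF horth horth'
    hκ0.le hρ0.le hball hθ0 hθκ ha0.le ha1 hTne (fun τ hτ => (hT τ hτ).2)
  obtain ⟨y, hy, hxy⟩ := hJ (x + t) (hball x hx) (by
    rw [Finset.card_image_of_injective _ hinj, Finset.sum_image hinj.injOn]
    refine hxT.trans (le_of_eq ?_)
    have h1 : ∀ τ ∈ T, Pool.Agent.SpecND.ee τ (x + t) =
        Pool.Agent.SpecND.ee z (x + t) * Pool.Agent.SpecND.ee (τ - z) (x + t) := by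
      intro τ _
      rw [← Pool.Agent.SpecND.ee_add_left, add_sub_cancel]
    rw [Finset.sum_congr rfl h1, ← Finset.mul_sum, norm_mul, Pool.Agent.SpecND.norm_ee, one_mul])
  exact ⟨x, hx, y, hy, hxy⟩

end Pool.Agent.Results.MP_53fa4a_an.AlmostPeriods
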