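import Pool.Agent.Lib.MP_53fa4a_an.Appr

/-!
# MP_53fa4a_an: the closure of a spectral set

Every bounded spectral set `Ω` satisfies `|Ω| + |Ω \ int (closure Ω)| ≤ |closure Ω|`. In particular
a nowhere dense spectral set has a closure of measure at least `2 |Ω|`, and no compact nowhere
dense set of positive measure is spectral.
-/

set_option autoImplicit false

open MeasureTheory Set Filter Metric
open scoped ENNReal Topology ComplexConjugate

namespace Pool.Agent.Results.MP_53fa4a_an.ClosureBound

open Pool.Agent.SpecND (transport small_shift exists_mass)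

/-- The exponential `x ↦ exp (2 π i ⟨l, x⟩)`. -/
noncomputable def ee {d : ℕ} (l x : EuclideanSpace ℝ (Fin d)) : ℂ :=
  Complex.exp (2 * Real.pi * Complex.I * ((inner ℝ l x : ℝ) : ℂ))

/-- `Ω` is spectral: there is a set `Λ` of frequencies whose exponentials, restricted to `Ω`, form
an orthogonal and complete family in `L²(Ω)`. -/
def IsSpectral {d : ℕ} (Ω : Set (EuclideanSpace ℝ (Fin d))) : Prop :=
  ∃ Λ : Set (EuclideanSpace ℝ (Fin d)),
    (∀ l ∈ Λ, ∀ l' ∈ Λ, l ≠ l' → ∫ x in Ω, ee l x * conj (ee l' x) = 0) ∧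
    ∀ f : EuclideanSpace ℝ (Fin d) → ℂ, MemLp f 2 (volume.restrict Ω) →
      (∀ l ∈ Λ, ∫ x in Ω, f x * conj (ee l x) = 0) → f =ᵐ[volume.restrict Ω] 0

variable {d : ℕ}

/-- the inequality for a thickening of the closure, up to a small error -/
theorem approx_bound {Ω : Set (EuclideanSpace ℝ (Fin d))} (hm : MeasurableSet Ω)
    (hb : Bornology.IsBounded Ω) (hs : IsSpectral Ω) {ε : ℝ} (hε : 0 < ε) {κ : ℝ≥0∞} (hκ : κ ≠ 0) :
    volume Ω + volume (Ω \ interior (closure Ω)) ≤ volume (thickening ε (closure Ω)) + κ := by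
  obtain ⟨Λ, horth, hcomp⟩ := hs
  have hfin : volume Ω ≠ ∞ := hb.measure_lt_top.ne
  by_cases h0 : volume Ω = 0
  · have h1 : volume (Ω \ interior (closure Ω)) = 0 := measure_mono_null sdiff_subset h0
    rw [h0, h1, add_zero]
    exact zero_le
  set K := closure Ω with hK
  have hKc : IsCompact K := hb.isCompact_closure
  have hκ2 : κ / 2 ≠ 0 := by simpa using hκ
  obtain ⟨x₀, hx₀, hpos⟩ := exists_mem_forall_mem_nhdsWithin_pos_measure h0
  -- points of the complement near the boundary
  have hbd : IsCompact (K ∩ (interior K)ᶜ) := hKc.inter_right isOpen_interior.isClosed_compl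
  obtain ⟨T, hTK, hTfin, hcov⟩ := hbd.elim_finite_subcover_image (b := Kᶜ) (c := fun s' => ball s' ε)
    (fun _ _ => isOpen_ball) (by
      rintro s ⟨-, hs⟩
      rw [← closure_compl] at hs
      obtain ⟨s', hs', hdist⟩ := Metric.mem_closure_iff.1 hs ε hε
      exact mem_biUnion hs' (by rwa [mem_ball]))
  have hdisj : Disjoint T K := by
    rw [Set.disjoint_left]
    exact fun x hx => hTK hx
  obtain ⟨r₁, hr₁, hsep⟩ := hdisj.exists_thickenings hTfin.isCompact hKc.isClosed
  have hsep' : ∀ s' ∈ T, ∀ y ∈ K, r₁ ≤ dist y s' := by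
    intro s' hs' y hy
    by_contra hcon
    push Not at hcon
    exact Set.disjoint_left.1 hsep (mem_thickening_iff.2 ⟨s', hs', hcon⟩)
      (self_subset_thickening hr₁ K hy)
  obtain ⟨r₂, hr₂, hshift⟩ := small_shift hm hfin hκ2
  set r := min r₁ r₂ with hr
  have hr0 : 0 < r := lt_min hr₁ hr₂
  set A := Ω ∩ ball x₀ r with hA
  have hAm : MeasurableSet A := hm.inter measurableSet_ball
  have hA0 : volume A ≠ 0 := (hpos A (inter_mem_nhdsWithin _ (ball_mem_nhds x₀ hr0))).ne'
  have hη0 : κ / 2 / volume Ω ≠ 0 := by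
    rw [ENNReal.div_ne_zero]
    exact ⟨hκ2, hfin⟩
  obtain ⟨G, M, hG, hM0, hMfin, h1, h2, hmass⟩ :=
    exists_mass hm hfin (Λ := Λ) horth hcomp hAm inter_subset_left hA0 hη0
  have hΩN : Ω ⊆ thickening ε K := subset_closure.trans (self_subset_thickening hε K)
  set c := volume Ω - κ / 2 with hc
  have htrans : M * volume (Ω \ interior K) + c * ∫⁻ x in A, G x ≤
      M * volume (thickening ε K) := by
    refine transport (x₀ := x₀) hm hAm isOpen_thickening.measurableSet hG h1 h2 sdiff_subset ?_ ?_
    · rintro s ⟨hsΩ, hsK⟩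
      obtain ⟨s', hs'T, hss'⟩ := mem_iUnion₂.1 (hcov ⟨subset_closure hsΩ, hsK⟩)
      refine ⟨x₀ - s', fun y hy => ⟨?_, ?_⟩⟩
      · rintro ⟨-, hball⟩
        rw [mem_ball, dist_eq_norm] at hball
        have e1 : y + (x₀ - s') - x₀ = y - s' := by abel
        rw [e1, ← dist_eq_norm] at hball
        have := hsep' s' hs'T y (subset_closure hy)
        exact absurd (hball.trans_le (min_le_left _ _)) (not_lt.2 this)
      · rw [mem_thickening_iff]
        refine ⟨y, subset_closure hy, ?_⟩
        rw [dist_eq_norm]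
        have e1 : y + (x₀ - s') - x₀ + s - y = s - s' := by abel
        rw [e1, ← dist_eq_norm]
        exact mem_ball.1 hss'
    · rintro x ⟨-, hx⟩
      rw [mem_ball, dist_eq_norm] at hx
      rw [hc, tsub_le_iff_right]
      refine (hshift (x - x₀) (hx.trans_le (min_le_right _ _))).trans ?_
      exact add_le_add (measure_mono fun s hs => ⟨hs.1, hΩN hs.2⟩) le_rfl
  -- algebra
  have hcM : c * M ≤ c * (∫⁻ x in A, G x) + κ / 2 * M := by
    calc c * M ≤ c * ((∫⁻ x in A, G x) + κ / 2 / volume Ω * M) := mul_le_mul_right hmass _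
      _ = c * (∫⁻ x in A, G x) + c * (κ / 2 / volume Ω) * M := by rw [mul_add, mul_assoc]
      _ ≤ c * (∫⁻ x in A, G x) + κ / 2 * M := by
        refine add_le_add le_rfl (mul_le_mul_left ?_ _)
        calc c * (κ / 2 / volume Ω) ≤ volume Ω * (κ / 2 / volume Ω) :=
              mul_le_mul_left tsub_le_self _
          _ = κ / 2 := ENNReal.mul_div_cancel h0 hfin
  have hfinal : M * (volume (Ω \ interior K) + c) ≤ M * (volume (thickening ε K) + κ / 2) := by
    calc M * (volume (Ω \ interior K) + c) = M * volume (Ω \ interior K) + c * M := by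
          rw [mul_add, mul_comm M c]
      _ ≤ M * volume (Ω \ interior K) + (c * (∫⁻ x in A, G x) + κ / 2 * M) :=
          add_le_add le_rfl hcM
      _ = (M * volume (Ω \ interior K) + c * (∫⁻ x in A, G x)) + κ / 2 * M := by rw [add_assoc]
      _ ≤ M * volume (thickening ε K) + κ / 2 * M := add_le_add htrans le_rfl
      _ = M * (volume (thickening ε K) + κ / 2) := by rw [mul_add, mul_comm M (κ / 2)]
  have hfinal' := (ENNReal.mul_le_mul_iff_right hM0 hMfin).1 hfinal
  calc volume Ω + volume (Ω \ interior K) ≤ (c + κ / 2) + volume (Ω \ interior K) :=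
        add_le_add le_tsub_add le_rfl
    _ = (volume (Ω \ interior K) + c) + κ / 2 := by ring
    _ ≤ (volume (thickening ε K) + κ / 2) + κ / 2 := add_le_add hfinal' le_rfl
    _ = volume (thickening ε K) + κ := by rw [add_assoc, ENNReal.add_halves]

/-- the inequality for measurable sets -/
theorem borel_bound {Ω : Set (EuclideanSpace ℝ (Fin d))} (hm : MeasurableSet Ω)
    (hb : Bornology.IsBounded Ω) (hs : IsSpectral Ω) :
    volume Ω + volume (Ω \ interior (closure Ω)) ≤ volume (closure Ω) := by
  have hthick : ∀ ε : ℝ, 0 < ε → volume Ω + volume (Ω \ interior (closure Ω)) ≤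
      volume (thickening ε (closure Ω)) := by
    intro ε hε
    refine ENNReal.le_of_forall_pos_le_add fun κ hκ _ => ?_
    exact approx_bound hm hb hs hε (by exact_mod_cast hκ.ne')
  have htend : Tendsto (fun r => volume (thickening r (closure Ω))) (𝓝[>] 0)
      (𝓝 (volume (closure Ω))) := by
    refine tendsto_measure_thickening_of_isClosed ⟨1, one_pos, ?_⟩ isClosed_closure
    exact hb.closure.thickening.measure_lt_top.ne
  refine ge_of_tendsto htend ?_
  filter_upwards [self_mem_nhdsWithin] with ε hε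
  exact hthick ε hε

/-- **The closure of a spectral set.** If `Ω` is a bounded Lebesgue measurable spectral set in
`ℝ^d`, then `|Ω| + |Ω \ int (closure Ω)| ≤ |closure Ω|`. -/
theorem result (d : ℕ) (Ω : Set (EuclideanSpace ℝ (Fin d))) (hm : NullMeasurableSet Ω volume)
    (hb : Bornology.IsBounded Ω) (hs : IsSpectral Ω) :
    volume Ω + volume (Ω \ interior (closure Ω)) ≤ volume (closure Ω) := by
  obtain ⟨Ω', hsub, hm', hae⟩ := hm.exists_measurable_subset_ae_eq
  have hs' : IsSpectral Ω' := by
    have hr : volume.restrict Ω' = volume.restrict Ω := Measure.restrict_congr_set hae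
    unfold IsSpectral
    rw [hr]
    exact hs
  have h1 := borel_bound hm' (hb.subset hsub) hs'
  have hcl : closure Ω' ⊆ closure Ω := closure_mono hsub
  have hvol : volume Ω' = volume Ω := measure_congr hae
  have hnull : volume (Ω \ Ω') = 0 := (ae_le_set.1 hae.symm.le)
  have h2 : volume (Ω \ interior (closure Ω)) ≤ volume (Ω' \ interior (closure Ω')) := by
    have hsub2 : Ω \ interior (closure Ω) ⊆ (Ω' \ interior (closure Ω')) ∪ (Ω \ Ω') := by
      rintro x ⟨hx, hx'⟩
      by_cases h : x ∈ Ω'
      · exact Or.inl ⟨h, fun hcon => hx' (interior_mono hcl hcon)⟩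
      · exact Or.inr ⟨hx, h⟩
    calc volume (Ω \ interior (closure Ω)) ≤
        volume (Ω' \ interior (closure Ω')) + volume (Ω \ Ω') :=
          (measure_mono hsub2).trans (measure_union_le _ _)
      _ = volume (Ω' \ interior (closure Ω')) := by rw [hnull, add_zero]
  calc volume Ω + volume (Ω \ interior (closure Ω)) ≤
      volume Ω' + volume (Ω' \ interior (closure Ω')) := by
        rw [hvol]
        exact add_le_add le_rfl h2
    _ ≤ volume (closure Ω') := h1
    _ ≤ volume (closure Ω) := measure_mono hcl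

end Pool.Agent.Results.MP_53fa4a_an.ClosureBound
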