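import Pool.Agent.Lib.MP_53fa4a_an_ST.FinB

/-!
# MP_53fa4a_an: spectra contained in finitely many translates of a lattice

If a bounded measurable set `Ω` in `ℝ^d` of positive measure has a spectrum contained in the union of
finitely many translates of a lattice `L` (no condition on the translation vectors), then `Ω` is a
multi-tile for the lattice `m⁻¹ L*`, `L*` the dual lattice of `L`, for some `m ≥ 1`, and the closure
of `Ω` has interior points.

Proof.  (B) A structure theorem: a function on `L + E`, `E` finite, with finitely many values and a
spectral gap, is annihilated by a product of differences `1 - X^{t v}`, `v` in a finite subset of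
`L \ {0}` which depends only on the gap (induction over all subspaces; uniqueness for functions
supported in a half space; slices by short dual vectors; pigeonhole principle and finite
determinacy).  (C) Exactness: one finite list `Q` of vectors of `L` such that for all frequencies `κ`
where `1_Ω * 1_{-Ω}` does not vanish the averages over the directions `q ∈ Q` with `⟨κ,q⟩ ∈ ℤ` and the
differences in the other directions annihilate the smoothed spectrum (induction over the rational
subspaces, Theorem (B) on the quotients).  (D) A box spline weight built from `Q`, Gallai's theorem and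
the Gram matrix of a fibre bound the number of points of the fibres by `m^d |Ω|`; integration
gives the multi-tiling; Baire's theorem the interior point.
-/

set_option autoImplicit false

open MeasureTheory Set Filter
open scoped ENNReal Topology ComplexConjugate

namespace Pool.Agent.Results.MP_53fa4a_an.FiniteTranslates

/-- The exponential `x ↦ exp (2 π i ⟨l, x⟩)`. -/
noncomputable def ee {d : ℕ} (l x : EuclideanSpace ℝ (Fin d)) : ℂ :=
  Complex.exp (2 * Real.pi * Complex.I * ((inner ℝ l x : ℝ) : ℂ))

/-- `Λ` is a spectrum of `Ω`: the exponentials with frequencies in `Λ` form an orthogonal and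
complete family in `L²(Ω)`. -/
def IsSpectrum {d : ℕ} (Λ Ω : Set (EuclideanSpace ℝ (Fin d))) : Prop :=
  (∀ l ∈ Λ, ∀ l' ∈ Λ, l ≠ l' → ∫ x in Ω, ee l x * conj (ee l' x) = 0) ∧
    ∀ f : EuclideanSpace ℝ (Fin d) → ℂ, MemLp f 2 (volume.restrict Ω) →
      (∀ l ∈ Λ, ∫ x in Ω, f x * conj (ee l x) = 0) → f =ᵐ[volume.restrict Ω] 0

/-- **Main theorem.**  Let `Ω` be bounded, of positive measure, with a spectrum `Λ` contained in
`F + L`, `F` a finite set and `L` the lattice spanned by a basis `b` of `ℝ^d`.  Then there are
positive integers `m`, `N` such that almost every point is in exactly `N` translates of `Ω` by vectors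
of the lattice spanned by `v`, where `m v` is the dual basis of `b`; and the closure of `Ω` has
an interior point. -/
theorem result {d : ℕ} {Ω Λ : Set (EuclideanSpace ℝ (Fin d))} (hm : NullMeasurableSet Ω volume)
    (hpos : volume Ω ≠ 0) (hb : Bornology.IsBounded Ω) (hs : IsSpectrum Λ Ω)
    (b : Module.Basis (Fin d) ℝ (EuclideanSpace ℝ (Fin d))) (F : Finset (EuclideanSpace ℝ (Fin d)))
    (hΛ : ∀ l ∈ Λ, ∃ a ∈ F, l - a ∈ Submodule.span ℤ (Set.range b)) :
    (∃ (m N : ℕ) (v : Module.Basis (Fin d) ℝ (EuclideanSpace ℝ (Fin d))), 0 < m ∧ 0 < N ∧
      (∀ i j, (m : ℝ) * inner ℝ (b i) (v j) = if i = j then 1 else 0) ∧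
      ∀ᵐ x, {l | l ∈ Submodule.span ℤ (Set.range v) ∧ x + l ∈ Ω}.encard = N) ∧
    (interior (closure Ω)).Nonempty :=
  Pool.Agent.ST53.finite_main2 hm hpos hb hs b F hΛ

end Pool.Agent.Results.MP_53fa4a_an.FiniteTranslates
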